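import Pool.Agent.U709.CeF

/-!
# Graphs of groups with central edge groups and the Farrell-Jones conjecture

`C` is a class of groups with the closure properties `ClosedE C` (it contains `ℤ`, is closed under
subgroups, finite products, free products, overgroups of finite index and directed colimits, and a group
`G` with a homomorphism onto a group `Q` in `C` is in `C` if the preimages of the virtually cyclic
subgroups of `Q` are in `C`), which contains the solvable groups and satisfies `AcylR C`: let `f` be a
homomorphism from `G` onto a finitely generated group `Q` which acts acylindrically and without inversions
on a tree; if the preimages of the stabilizers of the vertices and of the virtually cyclic subgroups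
of `Q` are in `C`, then `G` is in `C`.

All this is known for the class of the groups whose wreath products with finite groups satisfy the
K-theoretic and L-theoretic Farrell-Jones conjecture with coefficients in additive categories: `AcylR` is
the theorem of Knopf that `Q` satisfies the conjecture relative to the family of the virtually cyclic
subgroups and the subgroups of the stabilizers of the vertices, together with the facts that relative
conjectures with coefficients can be pulled back along homomorphisms (Bartels, Lück, Reich) and the
transitivity principle. If `X` is an aspherical complex with a torsion-free fundamental group in this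
class, then the assembly map of the problem is an equivalence.

(1) Let `G` act on a tree without inversions, with vertex stabilizers in `C`. Then `G` is in `C`
* (a) if the edge stabilizers are central in the stabilizers of their ends. Nothing else is assumed:
  the edge groups may be infinitely generated, of infinite index, and `G` may be far from residually
  finite (graphs of abelian groups are the special case of abelian vertex groups, which is the
  theorem of Gandini, Meinert and Rüping);
* (b) if there is an invariant equivalence relation on the neighbours of each vertex `v` (`LR G T r`) such
  that `G_v ∩ G_a ∩ G_b` has at most `n` elements for inequivalent neighbours `a`, `b`, and `G_v ∩ G_a` is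
  central in the group of the elements `g` of `G_v` such that `g a` is equivalent to `a`. (With one class
  at each vertex this is (a); if no different neighbours are equivalent and `n = 1`, the edge groups are
  abelian and malnormal.);
* (c) if the edge stabilizers are abelian and the maximal abelian subgroups of the vertex stabilizers are
  malnormal (`CSA`). Examples of such vertex groups in `C` are the torsion-free hyperbolic groups, the
  torsion-free groups which are hyperbolic relative to abelian groups, and limit groups. Here `G` does not
  need to have this property, and no condition on the position of the edge groups is needed.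

(2) Let `A` and `B` be in `C`. Then an amalgam `A *_E B` is in `C` if there are subgroups `E ≤ M ≤ A` and
`E ≤ N ≤ B` such that `E` is central in `M` and in `N`, and `E ∩ g E g⁻¹` has at most `n` elements for the
elements `g` of `A` which are not in `M`, and for the elements `g` of `B` which are not in `N`. For
example if `E` is central in `A` and `B`, or if `E` is central in `A`, abelian and malnormal in `B`.

(3) Let `G` be in `C`. Then all HNN extensions of `G` along isomorphisms `φ : A → B` of central subgroups
are in `C`.

Not covered are abelian edge groups which are not central, e.g. normal abelian subgroups on which
the vertex groups act by automorphisms.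

Outline of the proof. The theorem on cylinders reduces (b) to groups `K` with central edge groups, that is to
(a), and (c) is the case of (b) where `a` and `b` are equivalent if their edge groups contain commuting
nontrivial elements. For (a) let `K` be finitely generated and let `M` be the normal subgroup generated by
the edge groups. It meets the stabilizer of `v` in the group `R v` generated by the edge groups at `v`,
which is central in `K_v`, and `K ⧸ M` acts on the quotient tree with trivial edge stabilizers. By `AcylR`
for `K → K ⧸ M` one needs the groups `K_v M`, and the groups `L ≥ M` which meet the stabilizers of the
vertices in the groups `R v`. The stabilizers of the vertices in `L` are abelian; this is the case of the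
theorem of Gandini, Meinert and Rüping (`ab_tree`).

It remains to treat `K = K_v M` (`ck`). This group is generated by vertex stabilizers, so that the quotient
of the tree by `K` is a tree, which has a fundamental domain. As the edge groups are central, each
character of `R w` with values in a divisible group extends to a compatible family of characters of the
groups `R u`, and this family can be chosen to be invariant under `K`; it defines a `K`-invariant
character of `M`. So the `K`-invariant characters of `M` separate the elements of `R w` (`sep`). Let `N`
be the intersection of their kernels. It is normal in `K`, meets all `R w` trivially, and `M ⧸ N` is central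
in `K ⧸ N`, hence `K ⧸ N` is a central product of `K_v` and the abelian group `M ⧸ N`, and it is in `C`
(`cen_all`: its finitely generated subgroups are contained in groups of the form `H` extended by finitely
many central elements, and each step is a product with `ℤ` or an extension of finite index). The
homomorphism `K → K ⧸ N` is injective on the edge groups, and therefore `K` is in `C`.
-/

set_option autoImplicit false

namespace Pool.Agent.Results.MP_98022b_gt.CentralEdgeGroups

open Pool.Agent.Y110.FJ (ClosedE)
open Pool.Agent.N431.CE (Es)
open Pool.Agent.N509.TK (LR)
open Pool.Agent.Helper705_SA (IsAmalgam)
open Pool.Agent.U709.Rk (AcylR)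
open Pool.Agent.U709.Rm (AtMost RelMal)
open Pool.Agent.U709.Ce (CSA)

/-- Let `C` be a class of groups with `ClosedE C` and `AcylR C` which contains the solvable groups.
(1) Groups which act on trees without inversions and with vertex stabilizers in `C`, (a) with central edge
stabilizers, (b) with relatively central edge stabilizers, (c) with abelian edge stabilizers
and vertex stabilizers with malnormal maximal abelian subgroups. (2) Amalgams of groups in `C` along
relatively central subgroups. (3) HNN extensions of groups in `C` along central subgroups. -/
theorem result (C : ∀ (G : Type) [Group G], Prop) (hC : ClosedE C)
    (hS : ∀ (G : Type) [Group G], Group.IsSolvable G → C G) (hA : AcylR C) :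
    (∀ (G V : Type) [Group G] [MulAction G V] (T : SimpleGraph V), T.IsTree →
      (∀ (g : G) (u v : V), T.Adj u v → T.Adj (g • u) (g • v)) →
      (∀ (g : G) (u v : V), T.Adj u v → ¬ (g • u = v ∧ g • v = u)) →
      (∀ v : V, C ↥(MulAction.stabilizer G v)) →
      ((∀ u v : V, T.Adj u v → ∀ c ∈ Es G u v, ∀ g : G, g • u = u → g * c = c * g) → C G) ∧
      (∀ (r : V → V → V → Prop) (n : ℕ), LR G T r →
        (∀ v a b : V, T.Adj v a → T.Adj v b → ¬ r v a b →
          AtMost n {g : G | g • v = v ∧ g • a = a ∧ g • b = b}) →
        (∀ v a : V, T.Adj v a → ∀ c ∈ Es G v a, ∀ g : G, g • v = v → r v a (g • a) →
          g * c = c * g) → C G) ∧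
      ((∀ u v : V, T.Adj u v → ∀ x ∈ Es G u v, ∀ y ∈ Es G u v, x * y = y * x) →
        (∀ v : V, CSA ↥(MulAction.stabilizer G v)) → C G)) ∧
    (∀ (G : Type) [Group G] (A B : Subgroup G), IsAmalgam A B → C A → C B →
      ∀ (M N : Subgroup G) (n : ℕ), RelMal n (A ⊓ B) M A → RelMal n (A ⊓ B) N B →
      (∀ m ∈ M, ∀ e ∈ A ⊓ B, m * e = e * m) → (∀ m ∈ N, ∀ e ∈ A ⊓ B, m * e = e * m) → C G) ∧
    (∀ (G : Type) [Group G] (A B : Subgroup G) (φ : A ≃* B), C G →
      (∀ x ∈ A, ∀ g : G, g * x = x * g) → (∀ x ∈ B, ∀ g : G, g * x = x * g) →
      C (HNNExtension G A B φ)) := by
  have hM : ∀ (G : Type) [Group G], derivedSeries G 2 = ⊥ → C G := fun G _ h => hS G ⟨2, h⟩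
  refine ⟨fun G V _ _ T hT hact hinv hst => ⟨fun hc => ?_, fun r n hr hi hc => ?_, fun hab hcsa => ?_⟩,
    fun G _ A B h hcA hcB M N n h1 h2 h3 h4 => ?_, fun G _ A B φ hG h1 h2 => ?_⟩
  · exact Pool.Agent.U709.Ce.CAct.main hC hM hA ⟨hT, hact, hinv, hst, hc⟩
  · exact Pool.Agent.U709.Ce.rel_central hC hM hA hT hact hinv hst hr n hi hc
  · exact Pool.Agent.U709.Ce.csa_main hC hM hA hT hact hinv hst hcsa hab
  · exact Pool.Agent.U709.Ce.am_central hC hM hA h hcA hcB M N n h1 h2 h3 h4
  · exact Pool.Agent.U709.Ce.hnn_central hC hM hA hG h1 h2

end Pool.Agent.Results.MP_98022b_gt.CentralEdgeGroups
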