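import Pool.Agent.U709.RkI

/-!
# Graphs of groups with cyclic edge groups and the Farrell-Jones conjecture

`C` is a class of groups with the closure properties `ClosedE C` (it contains `ℤ`, is closed under
subgroups, finite products, free products, overgroups of finite index and directed colimits, and a group
`G` with a homomorphism onto a group `Q` in `C` is in `C` if the preimages of the virtually cyclic
subgroups of `Q` are in `C`), which contains the solvable groups and satisfies `AcylR C`: let `f` be a
homomorphism from `G` onto a finitely generated group `Q` which acts acylindrically and without inversions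
on a tree; if the preimages of the stabilizers of the vertices and of the virtually cyclic subgroups
of `Q` are in `C`, then `G` is in `C`.

All this is known for the class of the groups whose wreath products with finite groups satisfy the
K-theoretic and L-theoretic Farrell-Jones conjecture with coefficients in additive categories: `AcylR` is
the theorem of Knopf that `Q` satisfies the conjecture relative to the family of the virtually cyclic
subgroups and the subgroups of the stabilizers of the vertices, together with the facts that relative
conjectures with coefficients can be pulled back along homomorphisms (Bartels, Lück, Reich) and the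
transitivity principle. If `X` is an aspherical complex with a torsion-free fundamental group in this
class, then the assembly map of the problem is an equivalence (the K-theoretic part gives
the vanishing of the Whitehead group and of the lower K-groups, so that the decorations do not matter).

An element `c` of infinite order is balanced if no power `c ^ p` with `p ≠ 0` is conjugate to a
power `c ^ q` with `|q| ≠ |p|`, and a group is balanced if all its elements of infinite order are.
Hyperbolic groups, `CAT(0)` groups, subgroups of `GL_n(ℤ)`, mapping class groups and fundamental groups of
3-manifolds are balanced.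

(1) Let `G` act on a tree without inversions, with vertex stabilizers in `C`. Then `G` is in `C`
* (a) if the edge stabilizers are virtually cyclic and their elements of infinite order are balanced
  in `G`. Nothing else is assumed: the edge groups can be contained in the vertex groups in any way and
  nothing has to be visible in quotients of the vertex groups;
* (b) if the edge stabilizers are cyclic and generators `c`, `d` of two edge stabilizers at the same
  vertex satisfy `c ^ p = d ^ q` only for `|p| = |q|` (`LB`, a local criterion for (a));
* (c) if the edge stabilizers are cyclic and in each vertex stabilizer the commensurators of the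
  edge groups normalize them (`Nm`: if `g` conjugates a power of `c` to a power of `c`, then
  `g * c * g⁻¹ = c` or `c⁻¹`). Here `G` need not be balanced: all Baumslag-Solitar groups are covered;
* (d) if the edge stabilizers are cyclic, the tree is bipartite, with vertices with the property `A` and
  vertices without it, and at each vertex `b` without the property `A` (i) the elements of the stabilizer
  of `b` which conjugate a power of an element `c` of infinite order of an edge group to a power of `c`
  commute with `c` (`Cn`) and (ii) the stabilizer of `b` acts transitively on the edges at `b` with
  infinite edge groups commensurable with a given one (`Cm c d`: `c` and `d` have a common power).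
  There is no condition at the vertices with the property `A`.

(2) Let `A` and `B` be in `C`. Then an amalgam `A *_E B` is in `C`
* (a) if `E` is virtually cyclic and `A` and `B` are balanced; the amalgam is balanced as well, so that this
  can be iterated;
* (b) if `E = ⟨c⟩` is cyclic and the elements of `B` which conjugate a power of `c` to a power of `c`
  commute with `c` (`Cn`). There is no condition on `A`: for example roots can be adjoined to any element
  of any group in `C`, and `A *_⟨c⟩ (⟨c⟩ × B)` is in `C` for all `A`, `B` in `C` and all `c` in `A`.

(3) Let `G` be in `C`. Then an HNN extension of `G` with cyclic associated subgroups is in `C`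
* (a) if generators `x`, `y` of the associated subgroups (or of one of them) satisfy
  `g * x ^ p * g⁻¹ = y ^ q` only for `|p| = |q|`;
* (b) if the commensurators of the associated subgroups normalize them (`Nm`).

Not covered are amalgams in which `c` is not balanced in one factor and the condition of (2) (b) fails
in the other one, and similar graphs of groups.

Outline of the proof. The theorem on cylinders reduces everything to groups `K` which act on trees with
infinite commensurable edge groups. If `K` is finitely generated and a power `c ^ m` is central, then
`K ⧸ ⟨c ^ m⟩` acts on the tree of the fixed points of `c ^ m` with finite edge groups of bounded order and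
`AcylR` applies to `K` itself: no information on the quotient is needed. This gives (1) (a) and with the
comparison of powers along paths (1) (b), (2) (a) and (3) (a). For (1) (c) and (1) (d) let `M` be the normal
subgroup generated by the edge groups. It meets the stabilizer of `v` in the group `R v` generated by the
edge groups at `v`, and `K ⧸ M` acts on the quotient tree with trivial edge stabilizers. By `AcylR` one
needs the groups `K_v M` and the groups `L ≥ M` which meet the vertex stabilizers in the groups `R v`. For
(1) (c) the `K_v M` are balanced, and the `R v` are abelian of rank one. For (1) (d) the groups `K_b M`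
with `b` not in `A` are balanced; the other `K_v M` and `L` meet the stabilizers of the vertices not in `A`
in edge groups, and they have homomorphisms to the free product of the vertex groups which are injective on
edge groups: the inclusions of the conjugates of the vertex groups can be glued.
-/

set_option autoImplicit false

namespace Pool.Agent.Results.MP_98022b_gt.GraphsWithCyclicEdgeGroups

open Pool.Agent.Y110.FJ (ClosedE)
open Pool.Agent.N431.CE (Es)
open Pool.Agent.Helper705_SA (IsAmalgam)
open Pool.Agent.U74.BC (VCyc Balanced)
open Pool.Agent.U709.Rk (AcylR LB Nm Cn Cm)

/-- Let `C` be a class of groups with `ClosedE C` and `AcylR C` which contains the solvable groups.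
(1) Groups which act on trees with vertex stabilizers in `C` and with (a) virtually cyclic edge stabilizers
which are balanced in `G`, (b) cyclic edge stabilizers with the local condition `LB`, (c) cyclic edge
stabilizers which are normalized by their commensurators in the vertex stabilizers, (d) cyclic edge
stabilizers with conditions at one type of vertices. (2) Amalgams of groups in `C`, (a) of balanced groups
over virtually cyclic groups (they are balanced again), (b) over a cyclic group with a condition on one
factor. (3) HNN extensions. -/
theorem result (C : ∀ (G : Type) [Group G], Prop) (hC : ClosedE C)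
    (hS : ∀ (G : Type) [Group G], Group.IsSolvable G → C G) (hA : AcylR C) :
    (∀ (G V : Type) [Group G] [MulAction G V] (T : SimpleGraph V), T.IsTree →
      (∀ (g : G) (u v : V), T.Adj u v → T.Adj (g • u) (g • v)) →
      (∀ (g : G) (u v : V), T.Adj u v → ¬ (g • u = v ∧ g • v = u)) →
      (∀ v : V, C (MulAction.stabilizer G v)) →
      ((∀ u v : V, T.Adj u v → VCyc (Es G u v)) →
        (∀ u v : V, T.Adj u v → ∀ c ∈ Es G u v, ¬ IsOfFinOrder c →
          ∀ (g : G) (p q : ℤ), p ≠ 0 → q ≠ 0 → g * c ^ p * g⁻¹ = c ^ q → |p| = |q|) → C G) ∧
      ((∀ u v : V, T.Adj u v → IsCyclic (Es G u v)) →
        (LB G T → C G) ∧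
        ((∀ u v : V, T.Adj u v → ∀ c ∈ Es G u v, ¬ IsOfFinOrder c → ∀ g : G, g • u = u → Nm g c) →
          C G) ∧
        (∀ A : V → Prop, (∀ (g : G) (v : V), A v → A (g • v)) →
          (∀ u v : V, T.Adj u v → (A u ↔ ¬ A v)) →
          (∀ b u : V, ¬ A b → T.Adj b u → ∀ c ∈ Es G b u, ¬ IsOfFinOrder c →
            Cn (MulAction.stabilizer G b) c) →
          (∀ b u u' : V, ¬ A b → T.Adj b u → T.Adj b u' → ∀ c ∈ Es G b u, ∀ d ∈ Es G b u',
            ¬ IsOfFinOrder c → Cm c d → ∃ g : G, g • b = b ∧ g • u = u') → C G))) ∧
    (∀ (G : Type) [Group G] (A B : Subgroup G), IsAmalgam A B → C A → C B →
      (VCyc (A ⊓ B : Subgroup G) → Balanced A → Balanced B → C G ∧ Balanced G) ∧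
      (∀ c : G, A ⊓ B = Subgroup.zpowers c → Cn B c → C G)) ∧
    (∀ (G : Type) [Group G] (A B : Subgroup G) (φ : A ≃* B), C G → IsCyclic A →
      ((∀ x y : G, (A = Subgroup.zpowers x ∨ B = Subgroup.zpowers x) →
        (A = Subgroup.zpowers y ∨ B = Subgroup.zpowers y) → ¬ IsOfFinOrder x →
        ∀ (g : G) (p q : ℤ), p ≠ 0 → q ≠ 0 → g * x ^ p * g⁻¹ = y ^ q → |p| = |q|) →
        C (HNNExtension G A B φ)) ∧
      ((∀ x : G, (A = Subgroup.zpowers x ∨ B = Subgroup.zpowers x) → ¬ IsOfFinOrder x →
        ∀ g : G, Nm g x) → C (HNNExtension G A B φ))) := by
  have hM : ∀ (G : Type) [Group G], derivedSeries G 2 = ⊥ → C G := fun G _ h => hS G ⟨2, h⟩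
  refine ⟨fun G V _ _ T hT hact hinv hst => ⟨fun hE hb => ?_, fun hE => ⟨fun hl => ?_, fun hn => ?_,
      fun A hty halt hcn htr => ?_⟩⟩,
    fun G _ A B h hcA hcB => ⟨fun hE hbA hbB => ?_, fun c hE hn => ?_⟩,
    fun G _ A B φ hG hE => ⟨fun hb => ?_, fun hn => ?_⟩⟩
  · exact Pool.Agent.U709.Rk.BAct.main hC hM hA ⟨hT, hact, hinv, hE, hst, hb⟩
  · exact hl.main hC hM hA hT hact hinv hE hst
  · exact Pool.Agent.U709.Rk.NAct.main hC hS hA ⟨hT, hact, hinv, hE, hst, hn⟩
  · exact Pool.Agent.U709.Rk.one_tree hC hM hA hT hact A hty halt hE hst hcn htr
  · exact Pool.Agent.U709.Rk.am_bal hC hM hA A B h hE hcA hcB hbA hbB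
  · exact Pool.Agent.U709.Rk.am_one hC hM hA A B h hcA hcB c hE hn
  · exact Pool.Agent.U709.Rk.hnn_bal hC hM hA hG hE hb
  · exact Pool.Agent.U709.Rk.hnn_nm hC hS hA hG hE hn

end Pool.Agent.Results.MP_98022b_gt.GraphsWithCyclicEdgeGroups
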