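import Pool.Agent.U731.SP.Forms

set_option autoImplicit false

/-!
# Quadratic forms whose adjoint has a small spectral span

`Γ` is a torsion-free group. Quadratic forms over `ℤΓ` whose symmetrisation has its spectrum on `ℓ²`
in an interval of length at most `3 √2` are orthogonal sums of forms induced from cyclic subgroups;
if the length is less than `4`, they are induced from `ℤ`. The number `3 √2` is optimal.
-/

namespace Pool.Agent.Results.MP_98022b_gt.HermitianSpanForms

open TH57.Thr TH6.LF Matrix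

/-- the adjoint `ψ*` (conjugate transpose) for the involution `g ↦ g⁻¹` of the group ring -/
noncomputable def adjoint {G : Type} [Group G] {ι : Type} (P : Matrix ι ι (MonoidAlgebra ℤ G)) :
    Matrix ι ι (MonoidAlgebra ℤ G) :=
  Matrix.of fun i j => MonoidAlgebra.mapDomain (fun g => g⁻¹) (P j i)

/-- the inner product of finitely supported row vectors over `ℝG` -/
noncomputable def dot {G : Type} [Group G] {ι : Type} [Fintype ι] (x y : ι → MonoidAlgebra ℝ G) :
    ℝ :=
  ∑ i, (x i).coeff.sum fun g r => (y i).coeff g * r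

/-- The values of `⟨xP, x⟩` on the unit vectors of `ℓ²(G)^ι` (with finite support) lie in an interval
`[a, a + s]`; for hermitian `P` this says that the spectrum of the operator `P` lies in it. -/
def SpanLE {G : Type} [Group G] {ι : Type} [Fintype ι] (P : Matrix ι ι (MonoidAlgebra ℤ G))
    (s : ℝ) : Prop :=
  ∃ a : ℝ, ∀ x : ι → MonoidAlgebra ℝ G,
    a * dot x x ≤ dot x (x ᵥ* P.map (MonoidAlgebra.mapRingHom G (Int.castRingHom ℝ))) ∧
    dot x (x ᵥ* P.map (MonoidAlgebra.mapRingHom G (Int.castRingHom ℝ))) ≤ (a + s) * dot x x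

/-- All coefficients are `0`, `1` or `-1`. -/
def Small {G : Type} {ι : Type} (A : Matrix ι ι (MonoidAlgebra ℤ G)) : Prop :=
  ∀ i j g, (A i j).coeff g = 0 ∨ (A i j).coeff g = 1 ∨ (A i j).coeff g = -1

/-- The diagonal matrix of the group elements `u i`. -/
noncomputable def diag {G : Type} [Group G] {n : ℕ} (u : Fin n → G) :
    Matrix (Fin n) (Fin n) (MonoidAlgebra ℤ G) :=
  Matrix.diagonal fun i => MonoidAlgebra.single (u i) 1

/-- The matrices `ψ` and `ψ'` define the same quadratic form: they differ by `χ - χ*`. -/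
def SameForm {G : Type} [Group G] {n : ℕ} (ψ ψ' : Matrix (Fin n) (Fin n) (MonoidAlgebra ℤ G)) :
    Prop :=
  ∃ χ : Matrix (Fin n) (Fin n) (MonoidAlgebra ℤ G), ψ = ψ' + (χ - adjoint χ)

/-- The orthogonal sum of the forms `θ a` over the group rings of the subgroups `C a`, induced up to
the group ring of `G`; the summand `a` lives on the basis elements `i` with `ρ i = a`. -/
noncomputable def orthSum {G : Type} [Group G] {n : ℕ} (ρ : Fin n → Fin n)
    (C : Fin n → Subgroup G)
    (θ : ∀ a, Matrix {i // ρ i = a} {i // ρ i = a} (MonoidAlgebra ℤ (C a))) :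
    Matrix (Fin n) (Fin n) (MonoidAlgebra ℤ G) := fun i j =>
  if h : ρ j = ρ i then MonoidAlgebra.mapDomain (C (ρ i)).subtype (θ (ρ i) ⟨i, rfl⟩ ⟨j, h⟩) else 0

section aux

variable {G : Type} [Group G] {ι : Type}

theorem adjoint_eq (P : Matrix ι ι (MonoidAlgebra ℤ G)) : adjoint P = adj P := by
  ext i j g
  have h1 : g = (fun g : G => g⁻¹) g⁻¹ := by simp
  rw [coeff_adj]
  change (MonoidAlgebra.mapDomain (fun g : G => g⁻¹) (P j i)).coeff g = _
  conv_lhs => rw [h1]
  exact Finsupp.mapDomain_apply inv_injective _ _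

theorem dot_self [Fintype ι] (x : ι → MonoidAlgebra ℝ G) : dot x x = TH57.Thr.normSq x := by
  unfold dot TH57.Thr.normSq
  refine Finset.sum_congr rfl fun i _ => Finset.sum_congr rfl fun g _ => ?_
  rw [sq]

theorem dot_eq [Fintype ι] (x y : ι → MonoidAlgebra ℝ G) : dot x y = ip y x := by
  rw [ip_comm]
  unfold dot ip
  rw [MonoidAlgebra.coeff_sum, Finsupp.finsetSum_apply]
  refine Finset.sum_congr rfl fun i _ => ?_
  rw [MonoidAlgebra.coeff_mul_apply_left]
  refine Finset.sum_congr rfl fun g _ => ?_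
  change (y i).coeff g * (x i).coeff g = (x i).coeff g * (bar (y i)).coeff (g⁻¹ * 1)
  rw [coeff_bar]
  simp [mul_comm]

theorem span_iff [Fintype ι] (P : Matrix ι ι (MonoidAlgebra ℤ G)) (s : ℝ) :
    SpanLE P s ↔ U731.SP.SpanLE (toReal P) s := by
  rw [U731.SP.spanLE_iff]
  unfold SpanLE
  simp only [dot_self, dot_eq]
  rfl

end aux

/-- `ψ` is a quadratic form over `ℤΓ` (a square matrix modulo the matrices `χ - χ*`), `Γ` is
torsion-free; `ψ` is nonsingular if `ψ + ψ*` is invertible.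
1. If `ψ + ψ*` has span at most `3 √2`, then `ψ` is, up to a diagonal change of basis by group
   elements, an orthogonal sum of forms induced from cyclic subgroups, nonsingular if `ψ` is.
2. If `ψ + ψ*` has span less than `4`, then `ψ` is, up to a diagonal change of basis by group
   elements, a form over `ℤ`, nonsingular if `ψ` is.
3. For `s > 3 √2` each form is, after adding hyperbolic planes, isometric by a product of commutators
   to a form `φ` with coefficients `0`, `1`, `-1` such that `φ + φ*` has coefficients `0`, `1`, `-1`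
   and span at most `s`. -/
theorem result (Γ : Type) [Group Γ]
    (htf : ∀ g : Γ, ∀ n : ℕ, 0 < n → g ^ n = 1 → g = 1)
    (n : ℕ) (ψ : Matrix (Fin n) (Fin n) (MonoidAlgebra ℤ Γ)) :
    (∀ s : ℝ, s ^ 2 ≤ 18 → SpanLE (ψ + adjoint ψ) s →
      ∃ (ρ : Fin n → Fin n) (u : Fin n → Γ) (C : Fin n → Subgroup Γ)
        (θ : ∀ a, Matrix {i // ρ i = a} {i // ρ i = a} (MonoidAlgebra ℤ (C a))),
        (∀ a, IsCyclic (C a)) ∧
        SameForm (diag u * ψ * adjoint (diag u)) (orthSum ρ C θ) ∧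
        (IsUnit (ψ + adjoint ψ) → ∀ a, IsUnit (θ a + adjoint (θ a)))) ∧
    (∀ s : ℝ, s < 4 → SpanLE (ψ + adjoint ψ) s →
      ∃ (u : Fin n → Γ) (Ψ : Matrix (Fin n) (Fin n) ℤ),
        SameForm (diag u * ψ * adjoint (diag u)) (Ψ.map fun z => MonoidAlgebra.single 1 z) ∧
        (IsUnit (ψ + adjoint ψ) → IsUnit (Ψ + Ψ.transpose))) ∧
    ∀ s : ℝ, 0 < s → 18 < s ^ 2 →
      ∃ (m : ℕ) (E : (Matrix (Fin n ⊕ (Fin m ⊕ Fin m)) (Fin n ⊕ (Fin m ⊕ Fin m))
          (MonoidAlgebra ℤ Γ))ˣ) (φ : Matrix (Fin n ⊕ (Fin m ⊕ Fin m))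
          (Fin n ⊕ (Fin m ⊕ Fin m)) (MonoidAlgebra ℤ Γ)),
        E ∈ commutator (Matrix (Fin n ⊕ (Fin m ⊕ Fin m)) (Fin n ⊕ (Fin m ⊕ Fin m))
          (MonoidAlgebra ℤ Γ))ˣ ∧
        E.val * fromBlocks ψ 0 0 (fromBlocks 0 1 0 0) * adjoint E.val = φ ∧
        Small φ ∧ Small (φ + adjoint φ) ∧ SpanLE (φ + adjoint φ) s := by
  refine ⟨fun s hs hsp => ?_, fun s hs hsp => ?_, fun s hs0 hs => ?_⟩
  · rw [span_iff, adjoint_eq] at hsp
    obtain ⟨ρ, u, C, θ, χ, h1, h2, h3⟩ := U731.SP.forms_span_tf htf ψ s hs hsp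
    refine ⟨ρ, u, C, θ, h1, ⟨χ, ?_⟩, ?_⟩
    · rw [adjoint_eq, adjoint_eq]
      exact h2
    · rw [adjoint_eq]
      intro hu a
      rw [adjoint_eq]
      exact h3 hu a
  · rw [span_iff, adjoint_eq] at hsp
    obtain ⟨u, Ψ, χ, h2, h3⟩ := U731.SP.forms_span4 htf ψ s hs hsp
    refine ⟨u, Ψ, ⟨χ, ?_⟩, ?_⟩
    · rw [adjoint_eq, adjoint_eq]
      exact h2
    · rw [adjoint_eq]
      exact h3
  · obtain ⟨m, E, h1, h2, h3, h4⟩ := U731.SP.even_red2 ψ s hs0 hs
    refine ⟨m, E, _, h1, rfl, ?_, ?_, ?_⟩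
    · rw [adjoint_eq]
      exact h2
    · rw [adjoint_eq, adjoint_eq]
      exact h3
    · rw [adjoint_eq, adjoint_eq, span_iff]
      exact h4

end Pool.Agent.Results.MP_98022b_gt.HermitianSpanForms
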