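import Pool.Agent.U68.RG.Abel

/-!
# Extensions whose kernel is a right-angled Artin or Coxeter group, or any graph product

`C` is any class of groups with the closure properties `ClosedE C` which contains the groups `F ⋊ Z` for
all free groups `F` and all automorphisms of `F`. All this is published for the class of groups which
satisfy the Full Farrell–Jones Conjecture.

Let `W` be the graph product of its subgroups `A v` over a simple graph `Γ`, finite or infinite
(`IsGP Γ A`: the `A v` generate `W`, adjacent ones commute, and homomorphisms on the `A v` which satisfy
these relations extend to `W`). Let `I` be a set of vertices `v` with `A v` infinite cyclic. Let `W` be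
isomorphic to a normal subgroup `N` of `G`, let `G ⧸ N` be in `C`, and suppose that each element of `G`
acts on `W` by a product of *elementary* automorphisms (`Elem`). These are

* the triangular automorphisms: for the `v` in some finite set, `σ` and `σ⁻¹` map `A v` into the subgroup
  generated by the groups `A w` with `w = v` or `w` dominating `v`, and `σ` maps all the other `A v` onto
  themselves. Here `w` dominates `v` if each neighbour of `v` is `w` or a neighbour of `w`, and moreover
  `v` is in `I` or adjacent to `w`. This contains the automorphisms of the vertex groups and the
  (dominated) transvections `x ↦ x y ^ k`;
* the partial conjugations by elements of `A a`, on a union of connected components of the graph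
  without `a` and its neighbours;
* the automorphisms which permute the vertex groups and move only finitely many of them.

(1) If for each finite set `T` of pairwise adjacent vertices with the same other neighbours, each `g` in `G`
and each automorphism `α` of `A_T` (generated by the `A t`, `t ∈ T`) which `g` induces modulo the normal
closure of the other vertex groups, the mapping torus `A_T ⋊ Z` is in `C`, then `G` is in `C`.

(2) If the `A v` are finitely generated abelian groups and `C` contains all groups generated by a finitely
generated abelian normal subgroup and one further element, then `G` is in `C`.

By the theorems of Laurence (right-angled Artin groups) and of Corredor and Gutierrez (graph products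
of infinite cyclic groups and cyclic groups of prime power orders) all automorphisms of these groups
are products of elementary ones if the graph is finite. So by (2) the class of Farrell–Jones groups is
closed under all extensions whose kernel is a finitely generated right-angled Artin group, a finitely
generated right-angled Coxeter group or a graph product of finitely generated abelian groups over a
finite graph.

Outline of the proof.

* The relation `Dom` is transitive. For each vertex `v` the conjugacy class of the subgroup `P v`
  generated by the `A w` with `w = v` or `w` dominating `v` is preserved by the first two types of elementary
  automorphisms, and permutations permute these classes. So for a finite graph a subgroup of finite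
  index of `G` preserves the conjugacy class of each `P v`.
* Let `S` be a maximal class of mutually dominating vertices. All its elements have the same
  neighbours outside `S`. The kernel `K` of the retraction of `W` which kills the `A s`, `s ∈ S`, is the free
  product of the conjugates of `A_S` by representatives of the cosets of `A_L` in `A_{V - S}`, where `L` is
  the common link: this follows from an explicit isomorphism of `W` with a semidirect product.
* `K` is normal in `G`, and `G` permutes the `K`-conjugacy classes of these free factors. So
  `MP_490288_al.FreeProductExtensions` gives `G ∈ C` if `G ⧸ K` is in `C`, and `W ⧸ K` is a graph product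
  over a smaller graph on which `G ⧸ K` acts in the same way. The group `A_S` is free or the elements of
  `S` are adjacent twins.
* For infinite graphs one uses `MP_5d3e93_al.DetectedKernels` and finite sets of vertices which contain
  all the vertices involved in a given product of elementary automorphisms.
-/

set_option autoImplicit false

namespace Pool.Agent.Results.MP_98022b_gt.RightAngledKernels

open Pool.Agent.Y110.FJ Pool.Agent.U68.RG

theorem result (C : ∀ (G : Type) [Group G], Prop) (hC : ClosedE C)
    (hF : ∀ (X : Type) (α : MulAut (FreeGroup X)),
      C (FreeGroup X ⋊[zpowersHom (MulAut (FreeGroup X)) α] Multiplicative ℤ))
    (V W G : Type) [Group W] [Group G] (Γ : SimpleGraph V) (A : V → Subgroup W) (hA : IsGP Γ A)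
    (I : Set V) (hI : ∀ v ∈ I, Nonempty (Multiplicative ℤ ≃* A v))
    (N : Subgroup G) [N.Normal] (e : W ≃* N) (hQ : C (G ⧸ N))
    (hel : ∀ g : G, cj e g ∈ Subgroup.closure {σ | Elem Γ A I σ}) :
    ((∀ T : Set V, T.Finite → Twins Γ T → ∀ (g : G) (α : MulAut ↥(BS A T)), Ind A T (cj e g) α →
      C (↥(BS A T) ⋊[zpowersHom (MulAut ↥(BS A T)) α] Multiplicative ℤ)) → C G) ∧
    ((∀ (P : Type) [Group P] (B : Subgroup P), B.Normal → B.FG →
        (∀ a ∈ B, ∀ b ∈ B, a * b = b * a) → (∃ g : P, B ⊔ Subgroup.zpowers g = ⊤) → C P) →
      (∀ v, (A v).FG) → (∀ v, ∀ a ∈ A v, ∀ b ∈ A v, a * b = b * a) → C G) :=
  ⟨fun hm => main_elem hC hF e hA hI hel hm hQ,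
    fun hP hfg hab => main_abel hC hF hP e hA hI hfg hab hel hQ⟩

end Pool.Agent.Results.MP_98022b_gt.RightAngledKernels
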